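import Pool.Agent.H19.SYA.TA

/-!
# Elements killed modulo `g` are monomials in `ρ`
-/

set_option autoImplicit false

namespace Pool.Agent.H36.SYA

open MvPolynomial Pool.Agent.H2.ST Pool.Agent.H15.TG Pool.Agent.H19.SYA

theorem pderiv_zero {k : Type} [Field k] [CharZero k] (i : Fin 3) (P : MvPolynomial (Fin 3) k)
    (h : pderiv i P = 0) (d : Fin 3 →₀ ℕ) (hd : coeff d P ≠ 0) : d i = 0 := by
  by_contra hi
  have h1 : (d - Finsupp.single i 1) + Finsupp.single i 1 = d := by
    refine tsub_add_cancel_of_le ?_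
    rw [Finsupp.single_le_iff]
    exact Nat.one_le_iff_ne_zero.2 hi
  have h2 := coeff_pderiv (i := i) P (d - Finsupp.single i 1)
  rw [h, coeff_zero, h1] at h2
  rcases mul_eq_zero.1 h2.symm with h3 | h3
  · exact hd h3
  · exact Nat.cast_add_one_ne_zero _ h3

theorem pf_CHR : T_CHR := by
  intro k _ _ _ W H g f α β L _ _ Θ v wr m hC n U hU hg hf hn
  obtain ⟨N, P, hP, hw⟩ := hC.img n U hU
  have hvi : Function.Injective (aeval v : MvPolynomial (Fin 3) k →ₐ[k] L) := hC.ind
  have hv0 : v 0 ≠ 0 := by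
    intro h0
    have h1 : (aeval v : MvPolynomial (Fin 3) k →ₐ[k] L) (X 0) =
        (aeval v : MvPolynomial (Fin 3) k →ₐ[k] L) 0 := by
      rw [aeval_X, h0, map_zero]
    exact X_ne_zero (0 : Fin 3) (hvi h1)
  have hk : Function.Injective (algebraMap k L) := (algebraMap k L).injective
  have hβ : (β : k) ≠ 0 := by
    have := hC.pb
    exact_mod_cast this.ne'
  have h2 : pderiv 2 P = 0 := by
    have h3 := hC.dg U N P hP
    rw [(hC.ker _).2 hg, zero_mul] at h3
    exact hvi (by rw [← h3, map_zero])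
  have h1 : pderiv 1 P = 0 := by
    have h3 := hC.df U N P hP
    rw [(hC.ker _).2 hf, zero_mul] at h3
    rcases mul_eq_zero.1 h3.symm with h4 | h4
    · rcases mul_eq_zero.1 h4 with h5 | h5
      · exact absurd (hk (h5.trans (map_zero _).symm)) hβ
      · exact absurd h5 (pow_ne_zero _ hv0)
    · exact hvi (by rw [h4, map_zero])
  have hU0 : Θ U ≠ 0 := fun h => hn ((hC.ker _).1 h)
  have hP0 : P ≠ 0 := by
    intro h
    rw [h, map_zero] at hP
    rcases mul_eq_zero.1 hP with h4 | h4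
    · exact hU0 h4
    · exact pow_ne_zero _ hv0 h4
  obtain ⟨d, hd⟩ := MvPolynomial.exists_coeff_ne_zero hP0
  have hwt : ∀ e : Fin 3 →₀ ℕ, coeff e P ≠ 0 →
      (e 0 : ℤ) * wr = n + N * wr ∧ e 1 = 0 ∧ e 2 = 0 := by
    intro e he
    have h3 := pderiv_zero 1 P h1 e he
    have h4 := pderiv_zero 2 P h2 e he
    have h5 := hw he
    rw [Finsupp.weight_apply, Finsupp.sum_fintype _ _ (by simp), Fin.sum_univ_three] at h5
    refine ⟨?_, h3, h4⟩
    rw [h3, h4] at h5
    simpa using h5
  have hwp := hC.wp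
  have huniq : ∀ e : Fin 3 →₀ ℕ, coeff e P ≠ 0 → e = d := by
    intro e he
    obtain ⟨a1, a2, a3⟩ := hwt e he
    obtain ⟨b1, b2, b3⟩ := hwt d hd
    have h3 : (e 0 : ℤ) = d 0 := by
      have h4 : (e 0 : ℤ) * wr = d 0 * wr := a1.trans b1.symm
      exact mul_right_cancel₀ (by exact_mod_cast hwp.ne') h4
    ext i
    fin_cases i
    · exact_mod_cast h3
    · exact a2.trans b2.symm
    · exact a3.trans b3.symm
  have hmon : P = monomial d (coeff d P) := by
    ext e
    rw [coeff_monomial]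
    by_cases he : coeff e P = 0
    · rw [he]
      by_cases hde : d = e
      · rw [← hde] at he
        exact absurd he hd
      · rw [if_neg hde]
    · rw [if_pos (huniq e he).symm, huniq e he]
  obtain ⟨b1, b2, b3⟩ := hwt d hd
  refine ⟨coeff d P, (d 0 : ℤ) - N, hd, ?_, ?_⟩
  · have h3 : aeval v P = algebraMap k L (coeff d P) * v 0 ^ d 0 := by
      conv_lhs => rw [hmon]
      rw [aeval_monomial, Finsupp.prod_fintype _ _ (by simp), Fin.prod_univ_three, b2, b3]
      ring
    rw [zpow_sub₀ hv0, zpow_natCast, zpow_natCast, mul_div_assoc', ← h3, ← hP,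
      mul_div_cancel_right₀ _ (pow_ne_zero _ hv0)]
  · linear_combination -b1

end Pool.Agent.H36.SYA
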