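import Pool.Agent.H19.SYA.TA

/-!
# At most two special primes
-/

set_option autoImplicit false

namespace Pool.Agent.H36.SYA

open MvPolynomial Pool.Agent.H2.ST Pool.Agent.H15.TG Pool.Agent.H19.SYA

theorem pf_NO3 (hAGC : T_AGC) (hXPM : T_XPM) (hJAC : T_JAC) (hCAR : T_CAR) : T_NO3 := by
  intro k _ _ _ W H y w K n g e ω l hy hC
  rcases hC.alt with h | h2
  · exact h
  obtain ⟨φ, φ', hφ, hφ'⟩ := hXPM k W H y w hy
  refine hCAR n e ω l h2 hC.eo hC.lp hC.cop hC.one ?_
  intro i j t hij hjt hit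
  obtain ⟨a, b, hab⟩ := hC.pl i j t hij
  have hdi : ∀ u v : Fin (n + 2), ∀ d : k, u ≠ v → ¬ g v ^ e v = C d * g u ^ e u := by
    intro u v d huv h
    refine hC.na u v huv ?_
    have h1 : g u ∣ g v ^ e v := by
      rw [h]
      exact (dvd_pow_self _ (hC.ep u).ne').mul_left _
    exact (hC.pg u).dvd_of_dvd_pow h1
  have ha : a ≠ 0 := by
    intro h
    rw [h, C_0, zero_mul, zero_add] at hab
    exact hdi j t b hjt hab
  have hb : b ≠ 0 := by
    intro h
    rw [h, C_0, zero_mul, add_zero] at hab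
    exact hdi i t a hit hab
  let ix : Fin 3 → Fin (n + 2) := ![i, j, t]
  have hix : ∀ p q : Fin 3, p ≠ q → ix p ≠ ix q := by
    intro p q hpq
    fin_cases p <;> fin_cases q
    · exact absurd rfl hpq
    · exact hij
    · exact hit
    · exact hij.symm
    · exact absurd rfl hpq
    · exact hjt
    · exact hit.symm
    · exact hjt.symm
    · exact absurd rfl hpq
  have hφab : φ (g t) ^ e t = C a * φ (g i) ^ e i + C b * φ (g j) ^ e j := by
    have h1 := congrArg φ hab
    have h3 : ∀ d : k, φ (C d) = C d := fun d => φ.commutes d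
    rw [map_pow, map_add, map_mul, map_mul, map_pow, map_pow, h3, h3] at h1
    exact h1
  have key := hJAC k w (fun p => φ (g (ix p))) (fun p => e (ix p)) (fun p => ω (ix p)) l
    ![a, b, -1] hy.wp (fun p => hC.ep _) hC.lp (fun p => hC.eo _) ?_ ?_ ?_ ?_
  · rw [Fin.sum_univ_three] at key
    have h4 := hy.wp 0
    have h5 := hy.wp 1
    change (l : ℤ) + w 0 + w 1 ≤ (ω i : ℤ) + (ω j : ℤ) + (ω t : ℤ) at key
    have h6 : (l : ℤ) + 2 ≤ (ω i : ℤ) + (ω j : ℤ) + (ω t : ℤ) := by linarith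
    exact_mod_cast h6
  · intro p
    fin_cases p
    · exact ha
    · exact hb
    · exact neg_ne_zero.2 one_ne_zero
  · intro p
    exact hφ.wh _ _ (hC.gw _)
  · rw [Fin.sum_univ_three]
    change C a * φ (g i) ^ e i + C b * φ (g j) ^ e j + C (-1) * φ (g t) ^ e t = 0
    rw [hφab, C_neg, C_1]
    ring
  · intro p q hpq z hz
    exact hAGC k W H y w K n g e ω l φ φ' hy hφ hφ' hC (ix p) (ix q) (hix p q hpq) z hz

end Pool.Agent.H36.SYA
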