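import Pool.Agent.H19.SYA.TB

/-!
# Leading coefficients of polynomials with small values on separated discs
-/

set_option autoImplicit false

namespace Pool.Agent.H36.SYA

open Pool.Agent.H19.SYA Polynomial

variable {F : Type} [Field F]

/-- decrease one exponent -/
def dec {n : ℕ} (e : Fin n → ℕ) (i : Fin n) : Fin n → ℕ := fun l => if l = i then e l - 1 else e l

theorem dec_add {n : ℕ} (e : Fin n → ℕ) (i : Fin n) (hi : 0 < e i) (l : Fin n) :
    e l = dec e i l + if l = i then 1 else 0 := by
  unfold dec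
  by_cases h : l = i
  · subst h
    rw [if_pos rfl, if_pos rfl]
    omega
  · rw [if_neg h, if_neg h, add_zero]

theorem dec_sum {n : ℕ} (e : Fin n → ℕ) (i : Fin n) (hi : 0 < e i) :
    ∑ l, e l = ∑ l, dec e i l + 1 := by
  rw [Finset.sum_congr rfl fun l _ => dec_add e i hi l, Finset.sum_add_distrib]
  simp

/-- the product of powers -/
noncomputable def PP {n : ℕ} (c : Fin n → F) (e : Fin n → ℕ) : F[X] :=
  ∏ j, (X - C (c j)) ^ e j

theorem PP_dec {n : ℕ} (c : Fin n → F) (e : Fin n → ℕ) (i : Fin n) (hi : 0 < e i) :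
    PP c e = (X - C (c i)) * PP c (dec e i) := by
  unfold PP
  rw [Finset.prod_congr rfl fun l _ => by rw [dec_add e i hi l, pow_add], Finset.prod_mul_distrib,
    mul_comm]
  congr 1
  rw [Finset.prod_eq_single i]
  · rw [if_pos rfl, pow_one]
  · intro b _ hb
    rw [if_neg hb, pow_zero]
  · intro h
    exact absurd (Finset.mem_univ _) h

theorem dec_wsum {n : ℕ} (e : Fin n → ℕ) (V : Fin n → Fin n → ℕ) (i : Fin n) (hi : 0 < e i)
    (j : Fin n) : ∑ l ∈ Finset.univ.erase j, (e l : ℤ) * V j l =
      ∑ l ∈ Finset.univ.erase j, (dec e i l : ℤ) * V j l + if i = j then 0 else (V j i : ℤ) := by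
  have h1 : ∀ l : Fin n, (e l : ℤ) * V j l = (dec e i l : ℤ) * V j l +
      if l = i then (V j l : ℤ) else 0 := by
    intro l
    conv_lhs => rw [dec_add e i hi l]
    push_cast
    by_cases h : l = i
    · rw [if_pos h, if_pos h]
      ring
    · rw [if_neg h, if_neg h]
      ring
  rw [Finset.sum_congr rfl fun l _ => h1 l, Finset.sum_add_distrib, Finset.sum_ite_eq']
  congr 1
  by_cases h : i = j
  · rw [if_pos h, if_neg (by rw [h]; exact Finset.notMem_erase j _)]
  · rw [if_neg h, if_pos (Finset.mem_erase.2 ⟨h, Finset.mem_univ _⟩)]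

/-- the Taylor polynomial -/
theorem taylor_case (O : Subring F) (w : F) (G : F[X]) (c : F) (m : ℕ)
    (hG : ∀ j, (G.comp (C c + C w * X)).coeff j ∈ O) :
    ∃ A : F[X], A.degree < ((m + 1 : ℕ) : WithBot ℕ) ∧ (X - C c) ^ (m + 1) ∣ G - A ∧
      A.coeff m * w ^ m ∈ O := by
  let T : F[X] := taylor c G
  let A0 : F[X] := ∑ k ∈ Finset.range (m + 1), C (T.coeff k) * X ^ k
  have hTw : ∀ j, T.coeff j * w ^ j ∈ O := by
    intro j
    have h1 : G.comp (C c + C w * X) = T.comp (C w * X) := by
      change _ = (taylor c G).comp (C w * X)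
      rw [taylor_apply, comp_assoc]
      congr 1
      rw [add_comp, X_comp, C_comp, add_comm]
    have h2 := hG j
    rw [h1, comp_C_mul_X_coeff] at h2
    exact h2
  refine ⟨A0.comp (X - C c), ?_, ?_, ?_⟩
  · have h1 : A0.comp (X - C c) =
        ∑ k ∈ Finset.range (m + 1), C (T.coeff k) * (X - C c) ^ k := by
      change (∑ k ∈ Finset.range (m + 1), C (T.coeff k) * X ^ k).comp (X - C c) = _
      rw [Polynomial.sum_comp]
      refine Finset.sum_congr rfl fun k _ => ?_
      rw [mul_comp, C_comp, pow_comp, X_comp]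
    rw [h1]
    refine (degree_sum_le _ _).trans_lt ?_
    rw [Finset.sup_lt_iff (WithBot.bot_lt_coe _)]
    intro k hk
    refine (degree_mul_le _ _).trans_lt ?_
    have h2 : (C (T.coeff k)).degree ≤ 0 := degree_C_le
    have h3 : ((X - C c) ^ k : F[X]).degree = k := by
      rw [degree_pow, degree_X_sub_C, nsmul_one]
    rw [h3]
    calc (C (T.coeff k)).degree + (k : WithBot ℕ) ≤ 0 + (k : WithBot ℕ) := by gcongr
      _ = k := zero_add _
      _ < _ := by exact_mod_cast Finset.mem_range.1 hk
  · have h1 : X ^ (m + 1) ∣ T - A0 := by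
      rw [X_pow_dvd_iff]
      intro d hd
      change (T - ∑ k ∈ Finset.range (m + 1), C (T.coeff k) * X ^ k).coeff d = 0
      rw [coeff_sub, finsetSum_coeff, Finset.sum_eq_single d]
      · simp
      · intro b _ hb
        rw [coeff_C_mul_X_pow, if_neg (fun h => hb h.symm)]
      · intro h
        exact absurd (Finset.mem_range.2 hd) h
    obtain ⟨Q, hQ⟩ := h1
    refine ⟨Q.comp (X - C c), ?_⟩
    have h2 : G = T.comp (X - C c) := by
      change G = (taylor c G).comp (X - C c)
      rw [taylor_apply, comp_assoc, add_comp, X_comp, C_comp, sub_add_cancel, comp_X]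
    have h3 := congrArg (fun p : F[X] => p.comp (X - C c)) hQ
    simp only [sub_comp, mul_comp, pow_comp, X_comp] at h3
    rw [← h3, ← h2]
  · have h1 : (A0.comp (X - C c)).coeff m = T.coeff m := by
      change ((∑ k ∈ Finset.range (m + 1), C (T.coeff k) * X ^ k).comp (X - C c)).coeff m = _
      rw [Polynomial.sum_comp, finsetSum_coeff, Finset.sum_range_succ, Finset.sum_eq_zero, zero_add]
      · rw [mul_comp, C_comp, pow_comp, X_comp, coeff_C_mul]
        have h2 : ((X - C c) ^ m : F[X]).coeff m = 1 := by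
          have h3 := (monic_X_sub_C c).pow m
          have h4 : ((X - C c) ^ m : F[X]).natDegree = m := by
            rw [natDegree_pow, natDegree_X_sub_C, mul_one]
          have h5 : ((X - C c) ^ m : F[X]).coeff ((X - C c) ^ m : F[X]).natDegree = 1 := h3
          rwa [h4] at h5
        rw [h2, mul_one]
      · intro k hk
        have h2 : ((X - C c) ^ k : F[X]).coeff m = 0 := by
          refine coeff_eq_zero_of_natDegree_lt ?_
          rw [natDegree_pow, natDegree_X_sub_C, mul_one]
          exact Finset.mem_range.1 hk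
        rw [mul_comp, C_comp, pow_comp, X_comp, coeff_C_mul, h2, mul_zero]
    rw [h1]
    exact hTw m

theorem main_claim (O : Subring F) (w : F) (hw : w ∈ O) (hw0 : w ≠ 0) {n : ℕ} (c : Fin n → F)
    (V : Fin n → Fin n → ℕ) (hV : ∀ i j, V i j = V j i)
    (hc : ∀ i j, i ≠ j → c i ≠ c j ∧ (c i - c j)⁻¹ * w ^ (-(V i j : ℤ)) ∈ O) (G : F[X])
    (hG : ∀ i j, (G.comp (C (c i) + C w * X)).coeff j ∈ O) :
    ∀ (N : ℕ) (e : Fin n → ℕ), ∑ l, e l = N + 1 → ∀ B : ℤ,
    (∀ j, 0 < e j → B ≤ ∑ l ∈ Finset.univ.erase j, (e l : ℤ) * V j l - e j + 1) →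
    ∃ A : F[X], A.degree < ((N + 1 : ℕ) : WithBot ℕ) ∧ PP c e ∣ G - A ∧
      A.coeff N * w ^ (-B) ∈ O := by
  intro N
  induction N with
  | zero =>
    intro e he B hB
    obtain ⟨i, hi⟩ : ∃ i, e i ≠ 0 := by
      by_contra hcon
      push Not at hcon
      rw [Finset.sum_eq_zero fun l _ => hcon l] at he
      omega
    have hi1 : e i + ∑ l ∈ Finset.univ.erase i, e l = 1 := by
      rw [Finset.add_sum_erase _ _ (Finset.mem_univ i)]
      exact he
    have hz : ∀ l ∈ Finset.univ.erase i, e l = 0 := by
      have : ∑ l ∈ Finset.univ.erase i, e l = 0 := by omega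
      exact (Finset.sum_eq_zero_iff).1 this
    have hei : e i = 1 := by omega
    obtain ⟨A, hA1, hA2, hA3⟩ := taylor_case O w G (c i) 0 (hG i)
    refine ⟨A, hA1, ?_, ?_⟩
    · have h1 : PP c e = (X - C (c i)) ^ (0 + 1) := by
        unfold PP
        rw [Finset.prod_eq_single i]
        · rw [hei]
        · intro b _ hb
          rw [hz b (Finset.mem_erase.2 ⟨hb, Finset.mem_univ _⟩), pow_zero]
        · intro h
          exact absurd (Finset.mem_univ _) h
      rw [h1]
      exact hA2
    · have h1 := hB i (Nat.pos_of_ne_zero hi)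
      rw [Finset.sum_eq_zero fun l hl => by rw [hz l hl]; simp, hei] at h1
      obtain ⟨b, hb⟩ := Int.eq_ofNat_of_zero_le (by push_cast at h1; omega : 0 ≤ -B)
      rw [hb, zpow_natCast]
      rw [pow_zero, mul_one] at hA3
      exact O.mul_mem hA3 (O.pow_mem hw b)
  | succ N ih =>
    intro e he B hB
    by_cases hpair : ∃ p : Fin n × Fin n, p.1 ≠ p.2 ∧ 0 < e p.1 ∧ 0 < e p.2
    · classical
      let s : Finset (Fin n × Fin n) :=
        Finset.univ.filter fun p => p.1 ≠ p.2 ∧ 0 < e p.1 ∧ 0 < e p.2
      have hs : s.Nonempty := by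
        obtain ⟨p, hp⟩ := hpair
        exact ⟨p, Finset.mem_filter.2 ⟨Finset.mem_univ _, hp⟩⟩
      obtain ⟨⟨i, l⟩, hil, hmax⟩ := s.exists_max_image (fun p => V p.1 p.2) hs
      obtain ⟨hne, hei, hel⟩ := (Finset.mem_filter.1 hil).2
      change i ≠ l at hne
      change 0 < e i at hei
      change 0 < e l at hel
      have hmax' : ∀ a b, a ≠ b → 0 < e a → 0 < e b → V a b ≤ V i l := by
        intro a b h1 h2 h3
        exact hmax (a, b) (Finset.mem_filter.2 ⟨Finset.mem_univ _, h1, h2, h3⟩)
      have step : ∀ i', 0 < e i' → ∃ A : F[X], A.degree < ((N + 1 : ℕ) : WithBot ℕ) ∧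
          PP c (dec e i') ∣ G - A ∧ A.coeff N * w ^ (-(B - V i l)) ∈ O := by
        intro i' hi'
        refine ih (dec e i') ?_ (B - V i l) ?_
        · have := dec_sum e i' hi'
          omega
        · intro j hj
          have h1 := dec_wsum e V i' hi' j
          have h2 := dec_add e i' hi' j
          have hej : 0 < e j := by omega
          have h3 := hB j hej
          by_cases hij : i' = j
          · rw [if_pos hij] at h1
            rw [if_pos hij.symm] at h2
            have h4 : (e j : ℤ) = dec e i' j + 1 := by exact_mod_cast h2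
            have h5 : (0 : ℤ) ≤ V i l := Int.natCast_nonneg _
            linarith
          · rw [if_neg hij] at h1
            rw [if_neg (fun h => hij h.symm)] at h2
            have h4 : (e j : ℤ) = dec e i' j := by exact_mod_cast h2
            have h5 : (V j i' : ℤ) ≤ V i l := by
              exact_mod_cast hmax' j i' (fun h => hij h.symm) hej hi'
            linarith
      obtain ⟨A1, a1, a2, a3⟩ := step i hei
      obtain ⟨A2, b1, b2, b3⟩ := step l hel
      obtain ⟨hcne, hcO⟩ := hc l i hne.symm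
      have hc0 : c l - c i ≠ 0 := sub_ne_zero.2 hcne
      refine ⟨C (c l - c i)⁻¹ * ((X - C (c i)) * A1 - (X - C (c l)) * A2), ?_, ?_, ?_⟩
      · rw [degree_C_mul (inv_ne_zero hc0)]
        refine (degree_sub_le _ _).trans_lt ?_
        rw [max_lt_iff]
        constructor
        · rw [degree_mul, degree_X_sub_C]
          by_cases h0 : A1 = 0
          · rw [h0, degree_zero]
            exact WithBot.bot_lt_coe _
          · rw [degree_eq_natDegree h0] at a1 ⊢
            have h1 : A1.natDegree < N + 1 := by exact_mod_cast a1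
            exact_mod_cast (by omega : 1 + A1.natDegree < N + 1 + 1)
        · rw [degree_mul, degree_X_sub_C]
          by_cases h0 : A2 = 0
          · rw [h0, degree_zero]
            exact WithBot.bot_lt_coe _
          · rw [degree_eq_natDegree h0] at b1 ⊢
            have h1 : A2.natDegree < N + 1 := by exact_mod_cast b1
            exact_mod_cast (by omega : 1 + A2.natDegree < N + 1 + 1)
      · obtain ⟨q1, hq1⟩ := a2
        obtain ⟨q2, hq2⟩ := b2
        have e1 := PP_dec c e i hei
        have e2 := PP_dec c e l hel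
        refine ⟨C (c l - c i)⁻¹ * (q1 - q2), ?_⟩
        have h1 : (C (c l - c i)⁻¹ * (C (c l) - C (c i)) : F[X]) = 1 := by
          rw [← C_sub, ← C_mul, inv_mul_cancel₀ hc0, C_1]
        have h2 : (X - C (c i)) * (G - A1) = PP c e * q1 := by
          rw [hq1, e1]
          ring
        have h3 : (X - C (c l)) * (G - A2) = PP c e * q2 := by
          rw [hq2, e2]
          ring
        linear_combination -G * h1 + C (c l - c i)⁻¹ * h2 - C (c l - c i)⁻¹ * h3
      · have k1 : A1.coeff (N + 1) = 0 := coeff_eq_zero_of_degree_lt a1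
        have k2 : A2.coeff (N + 1) = 0 := coeff_eq_zero_of_degree_lt b1
        have h1 : (C (c l - c i)⁻¹ * ((X - C (c i)) * A1 - (X - C (c l)) * A2)).coeff (N + 1) =
            (c l - c i)⁻¹ * (A1.coeff N - A2.coeff N) := by
          rw [coeff_C_mul, coeff_sub, sub_mul, sub_mul, coeff_sub, coeff_sub, coeff_X_mul,
            coeff_X_mul, coeff_C_mul, coeff_C_mul, k1, k2]
          ring
        have h2 : (w : F) ^ (-B) = w ^ (-(B - V i l)) * w ^ (-(V l i : ℤ)) := by
          rw [← zpow_add₀ hw0, hV l i]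
          congr 1
          ring
        rw [h1, h2]
        have h3 : (c l - c i)⁻¹ * (A1.coeff N - A2.coeff N) *
            (w ^ (-(B - V i l)) * w ^ (-(V l i : ℤ))) =
            (A1.coeff N * w ^ (-(B - V i l)) - A2.coeff N * w ^ (-(B - V i l))) *
              ((c l - c i)⁻¹ * w ^ (-(V l i : ℤ))) := by
          ring
        rw [h3]
        exact O.mul_mem (O.sub_mem a3 b3) hcO
    · push Not at hpair
      obtain ⟨i, hi⟩ : ∃ i, e i ≠ 0 := by
        by_contra hcon
        push Not at hcon
        rw [Finset.sum_eq_zero fun l _ => hcon l] at he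
        omega
      have hz : ∀ l ∈ Finset.univ.erase i, e l = 0 := by
        intro l hl
        have h1 := hpair (i, l) (Finset.mem_erase.1 hl).1.symm (Nat.pos_of_ne_zero hi)
        exact Nat.le_zero.1 h1
      have hei : e i = N + 1 + 1 := by
        rw [← he, ← Finset.add_sum_erase _ _ (Finset.mem_univ i), Finset.sum_eq_zero hz, add_zero]
      obtain ⟨A, hA1, hA2, hA3⟩ := taylor_case O w G (c i) (N + 1) (hG i)
      refine ⟨A, hA1, ?_, ?_⟩
      · have h1 : PP c e = (X - C (c i)) ^ (N + 1 + 1) := by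
          unfold PP
          rw [Finset.prod_eq_single i]
          · rw [hei]
          · intro b _ hb
            rw [hz b (Finset.mem_erase.2 ⟨hb, Finset.mem_univ _⟩), pow_zero]
          · intro h
            exact absurd (Finset.mem_univ _) h
        rw [h1]
        exact hA2
      · have h1 := hB i (Nat.pos_of_ne_zero hi)
        rw [Finset.sum_eq_zero fun l hl => by rw [hz l hl]; simp, hei] at h1
        obtain ⟨b, hb⟩ := Int.eq_ofNat_of_zero_le
          (by push_cast at h1 ⊢; omega : 0 ≤ -B - ((N + 1 : ℕ) : ℤ))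
        have h2 : (w : F) ^ (-B) = w ^ (N + 1) * w ^ b := by
          rw [← zpow_natCast, ← zpow_natCast, ← zpow_add₀ hw0, ← hb]
          congr 1
          ring
        rw [h2, ← mul_assoc]
        exact O.mul_mem hA3 (O.pow_mem hw b)

theorem pow_coeff_mem (O : Subring F) (g : F[X]) (hg : ∀ j, g.coeff j ∈ O) (n : ℕ) :
    ∀ j, (g ^ n).coeff j ∈ O := by
  have h1 : g ∈ lifts O.subtype := by
    rw [lifts_iff_coeff_lifts]
    intro j
    exact ⟨⟨_, hg j⟩, rfl⟩
  have h2 : g ^ n ∈ lifts O.subtype := pow_mem h1 n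
  rw [lifts_iff_coeff_lifts] at h2
  intro j
  obtain ⟨x, hx⟩ := h2 j
  rw [← hx]
  exact x.2

theorem pf_VI : T_VI := by
  intro F _ O w hw hw0 n c V hn hV hc f D s hf hfO hs
  classical
  let i0 : Fin n := ⟨0, hn⟩
  let e : Fin n → ℕ := fun j => D + if j = i0 then 1 else 0
  have hesum : ∑ l, e l = n * D + 1 := by
    change ∑ l, (D + if l = i0 then 1 else 0) = _
    rw [Finset.sum_add_distrib]
    simp
  have hG : ∀ i j, ((f ^ n).comp (C (c i) + C w * X)).coeff j ∈ O := by
    intro i j
    rw [pow_comp]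
    exact pow_coeff_mem O _ (hfO i) n j
  have hcond : ∀ j, 0 < e j → (D : ℤ) * ((s : ℤ) - 1) ≤
      ∑ l ∈ Finset.univ.erase j, (e l : ℤ) * V j l - e j + 1 := by
    intro j _
    have h1 : (D : ℤ) * s ≤ ∑ l ∈ Finset.univ.erase j, (D : ℤ) * V j l := by
      rw [← Finset.mul_sum]
      refine mul_le_mul_of_nonneg_left ?_ (Int.natCast_nonneg _)
      exact_mod_cast hs j
    have h2 : ∑ l ∈ Finset.univ.erase j, (D : ℤ) * V j l ≤
        ∑ l ∈ Finset.univ.erase j, (e l : ℤ) * V j l := by
      refine Finset.sum_le_sum fun l _ => ?_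
      refine mul_le_mul_of_nonneg_right ?_ (Int.natCast_nonneg _)
      have : D ≤ e l := Nat.le_add_right _ _
      exact_mod_cast this
    have h3 : (e j : ℤ) ≤ D + 1 := by
      have : e j ≤ D + 1 := by
        change D + (if j = i0 then 1 else 0) ≤ D + 1
        split_ifs <;> omega
      exact_mod_cast this
    have h4 : (D : ℤ) * ((s : ℤ) - 1) = D * s - D := by ring
    linarith
  obtain ⟨A, hA1, hA2, hA3⟩ := main_claim O w hw hw0 c V hV hc (f ^ n) hG (n * D) e hesum
    ((D : ℤ) * ((s : ℤ) - 1)) hcond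
  have hPm : (PP c e).Monic := monic_prod_of_monic _ _ fun j _ => (monic_X_sub_C _).pow _
  have hPd : (PP c e).natDegree = n * D + 1 := by
    unfold PP
    rw [natDegree_prod_of_monic _ _ fun j _ => (monic_X_sub_C _).pow _, ← hesum]
    refine Finset.sum_congr rfl fun j _ => ?_
    rw [natDegree_pow, natDegree_X_sub_C, mul_one]
  have hGA : f ^ n - A = 0 := by
    refine eq_zero_of_dvd_of_degree_lt hA2 ?_
    rw [degree_eq_natDegree hPm.ne_zero, hPd]
    refine (degree_sub_le _ _).trans_lt (max_lt ?_ hA1)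
    refine degree_le_natDegree.trans_lt ?_
    have h1 : (f ^ n).natDegree ≤ n * D := (natDegree_pow_le).trans (Nat.mul_le_mul_left n hf)
    exact_mod_cast Nat.lt_succ_of_le h1
  have hA : A = f ^ n := (sub_eq_zero.1 hGA).symm
  have hcf : (f ^ n).coeff (n * D) = f.coeff D ^ n := coeff_pow_of_natDegree_le hf
  rw [hA, hcf] at hA3
  exact hA3

end Pool.Agent.H36.SYA
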